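import Mathlib

set_option autoImplicit false

namespace Pool.Agent.Lib.MP_5b8c2d_co

/-- parent relation of the friendship tree on tokens -/
def tadj (a b : ℕ) : Prop :=
  (a = 0 ∧ b ≠ 0 ∧ (b < 4 ∨ b % 4 = 0 ∨ b % 4 = 3)) ∨
    (4 ≤ a ∧ a % 4 = 0 ∧ (b = a + 1 ∨ b = a + 2))

/-- edges of the board, smaller cell first -/
def yadj0 (a b : ℕ) : Prop :=
  (a % 4 = 0 ∧ (b = a + 3 ∨ b = a + 4 ∨ b = a + 5)) ∨
    (a % 4 = 1 ∧ (b = a + 1 ∨ b = a + 5 ∨ b = a + 6)) ∨ (a % 4 = 2 ∧ b = a + 1)

def yadj (a b : ℕ) : Prop := yadj0 a b ∨ yadj0 b a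

theorem yadj_symm {a b : ℕ} (h : yadj a b) : yadj b a := Or.symm h

/-- position relative to the window starting at `B`: 12 = below, 13 = above -/
def rel (B r : ℕ) : ℕ := if r < B then 12 else if B + 12 ≤ r then 13 else r - B

theorem rel_spec (B r : ℕ) : (rel B r = 12 ∧ r < B) ∨ (rel B r = 13 ∧ B + 12 ≤ r) ∨
    (rel B r < 12 ∧ r = B + rel B r) := by
  unfold rel
  split_ifs <;> omega

theorem rel_lt (B r : ℕ) : rel B r < 14 := by
  have := rel_spec B r
  omega

theorem rel_add (B c : ℕ) (hc : c < 12) : rel B (B + c) = c := by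
  unfold rel
  split_ifs <;> omega

def E1 (a b : ℕ) : Bool :=
  (decide (b < 12) && ((a % 4 == 0 && (b == a + 3 || b == a + 4 || b == a + 5)) ||
    (a % 4 == 1 && (b == a + 1 || b == a + 5 || b == a + 6)) || (a % 4 == 2 && b == a + 1))) ||
  (a == 12 && (b == 12 || decide (b < 4))) || (b == 13 && (a == 13 || a == 8 || a == 9))

def E0 (a b : ℕ) : Bool := E1 a b || E1 b a

theorem E1_of_adj {B r r' : ℕ} (hB : B % 4 = 0) (h : yadj0 r r') :
    E1 (rel B r) (rel B r') = true := by
  have h1 := rel_spec B r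
  have h2 := rel_spec B r'
  have h3 := rel_lt B r
  have h4 := rel_lt B r'
  generalize rel B r = a at *
  generalize rel B r' = b at *
  unfold yadj0 at h
  interval_cases a <;> interval_cases b <;> first | rfl | (exfalso; omega)

theorem E0_of_adj {B r r' : ℕ} (hB : B % 4 = 0) (h : yadj r r') :
    E0 (rel B r) (rel B r') = true := by
  unfold E0
  rcases h with h | h
  · rw [E1_of_adj hB h, Bool.true_or]
  · rw [E1_of_adj hB h, Bool.or_true]

def W (w w' a b : ℕ) : Bool := (w == a && w' == b) || (w == b && w' == a)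

def mIn (a : ℕ) : Bool := decide (a < 4) || a == 12
def mTri (a : ℕ) : Bool := a == 6 || a == 7
def mP (a : ℕ) : Bool := a == 4 || a == 8 || a == 9 || a == 13
def mQ (a : ℕ) : Bool := a == 5 || a == 10 || a == 11

/-- invariant of a level, in relative coordinates -/
def I0 (r k w w' : ℕ) : Bool :=
  (mIn r && ((k == 4 && W w w' 5 7) || (k == 7 && W w w' 4 5) ||
    (k == 5 && W w w' 4 6) || (k == 6 && W w w' 4 5))) ||
  (r == 6 && ((k == 4 && W w w' 5 7) || (k == 7 && W w w' 4 5) || (k == 1 && W w w' 4 5))) ||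
  (r == 7 && ((k == 5 && W w w' 4 6) || (k == 6 && W w w' 4 5) || (k == 1 && W w w' 4 5))) ||
  (mP r && ((k == 0 && W w w' 5 7) || (k == 5 && W w w' 0 7))) ||
  (mQ r && ((k == 0 && W w w' 4 6) || (k == 4 && W w w' 0 6)))

def bit0 (k w w' : ℕ) : Bool := k == 6 || w == 6 || w' == 6

/-- forbidden root moves, seen from the level itself (`c = 0`) or from below (`c = 4`) -/
def forb (c a b : ℕ) : Bool :=
  (a == c + 6 && b == c + 5) || (a == c + 5 && b == c + 6) ||
    (a == c + 7 && b == c + 4) || (a == c + 4 && b == c + 7)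

def R1 (a : ℕ) (s : Bool) (b : ℕ) : Bool :=
  (a == 0 && !s && mP b) || (a == 0 && s && mQ b) || (a == 1 && mTri b)

def R0 (a : ℕ) (s : Bool) (b : ℕ) (s' : Bool) : Bool :=
  (mIn a && mIn b && s == s') || (mTri a && mTri b) || (mP a && mP b) || (mQ a && mQ b) ||
    R1 a s b || R1 b s' a

set_option synthInstance.maxSize 4000 in
theorem fin_small : ∀ r < 14, ∀ k < 14, ∀ w < 14, ∀ w' < 14, I0 r k w w' = true →
    k < 8 ∧ w < 8 ∧ w' < 8 ∧ I0 r k w' w = true := by
  decide +kernel

set_option synthInstance.maxSize 4000 in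
theorem fin_forb : ∀ r < 14, ∀ k < 14, ∀ w < 14, ∀ w' < 14, I0 r k w w' = true →
    ∀ r' < 14, r' ≠ w → r' ≠ w' → forb 0 r r' = false := by
  decide +kernel

set_option synthInstance.maxSize 4000 in
theorem fin_free' : ∀ r < 14, ∀ k < 14, ∀ w < 14, ∀ w' < 14, I0 r k w w' = true →
    ∀ r' < 14, (E0 r r' && r' != k && r' != w && r' != w' && !forb 4 r r') = true →
      (I0 r' k w w' && R0 r (bit0 k w w') r' (bit0 k w w')) = true := by
  decide +kernel

theorem fin_free : ∀ r < 14, ∀ k < 14, ∀ w < 14, ∀ w' < 14, I0 r k w w' = true →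
    ∀ r' < 14, E0 r r' = true → r' ≠ k → r' ≠ w → r' ≠ w' → forb 4 r r' = false →
      I0 r' k w w' = true ∧ R0 r (bit0 k w w') r' (bit0 k w w') = true := by
  intro r hr k hk w hw w' hw' h r' hr' h1 h2 h3 h4 h5
  have := fin_free' r hr k hk w hw w' hw' h r' hr' (by simp [h1, h2, h3, h4, h5])
  simpa using this

set_option synthInstance.maxSize 4000 in
theorem fin_key : ∀ r < 14, ∀ k < 14, ∀ w < 14, ∀ w' < 14, I0 r k w w' = true →
    E0 r k = true → I0 k r w w' = true ∧ R0 r (bit0 k w w') k (bit0 r w w') = true := by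
  decide +kernel

set_option synthInstance.maxSize 4000 in
theorem fin_wall : ∀ r < 14, ∀ k < 14, ∀ w < 14, ∀ w' < 14, I0 r k w w' = true →
    E0 k w = true → I0 r w k w' = true := by
  decide +kernel

/-- invariant of level `i + 1` -/
def Inv (f : ℕ → ℕ) (i : ℕ) : Prop :=
  I0 (rel (4 * i) (f 0)) (rel (4 * i) (f (4 * i + 4))) (rel (4 * i) (f (4 * i + 5)))
    (rel (4 * i) (f (4 * i + 6))) = true

def bit (f : ℕ → ℕ) (i : ℕ) : Bool :=
  bit0 (rel (4 * i) (f (4 * i + 4))) (rel (4 * i) (f (4 * i + 5))) (rel (4 * i) (f (4 * i + 6)))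

def L : ℕ → ℤ
  | 0 => 3
  | i + 1 => 2 * L i + 2

theorem L_ge (i : ℕ) : 2 ^ (i + 1) ≤ L i := by
  induction i with
  | zero => simp [L]
  | succ i ih => rw [L, pow_succ]; linarith

/-- potential -/
def phi (r : ℕ) (s : ℕ → Bool) : ℕ → ℤ
  | 0 => if r = 3 then 1 else if r = 2 then 2 else if r = 1 ∨ r = 6 ∨ r = 7 then 3 else 0
  | i + 1 => if mQ (rel (4 * i) r) then L (i + 1) else if mTri (rel (4 * i) r) then 1 + L i
      else if mIn (rel (4 * i) r) then (if s i then L (i + 1) - 1 - phi r s i else 1 + phi r s i)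
      else 0

theorem phi_p (s : ℕ → Bool) (i : ℕ) : phi (4 * i) s i = 0 := by
  cases i with
  | zero => simp [phi]
  | succ i =>
    have : rel (4 * i) (4 * (i + 1)) = 4 := rel_add (4 * i) 4 (by norm_num)
    simp [phi, this, mQ, mTri, mIn]

theorem phi_q (s : ℕ → Bool) (i : ℕ) : phi (4 * i + 1) s i = L i := by
  cases i with
  | zero => simp [phi, L]
  | succ i =>
    have : rel (4 * i) (4 * (i + 1) + 1) = 5 := rel_add (4 * i) 5 (by norm_num)
    simp [phi, this, mQ]

theorem phi_congr (r : ℕ) (s s' : ℕ → Bool) (n : ℕ) (h : ∀ i < n, s i = s' i) :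
    phi r s n = phi r s' n := by
  induction n with
  | zero => simp [phi]
  | succ n ih =>
    simp only [phi]
    rw [ih (fun i hi => h i (by omega)), h n (by omega)]

theorem phi_R1 (r r' : ℕ) (s s' : ℕ → Bool) (i : ℕ)
    (h : R1 (rel (4 * i) r) (s i) (rel (4 * i) r') = true) :
    |phi r s (i + 1) - phi r' s' (i + 1)| ≤ 1 := by
  have h1 := rel_spec (4 * i) r
  have hp := phi_p s i
  have hq := phi_q s i
  have h4 := rel_lt (4 * i) r'
  simp only [R1, Bool.or_eq_true, Bool.and_eq_true, beq_iff_eq, Bool.not_eq_true'] at h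
  simp only [phi]
  rcases h with (⟨⟨h2, h3⟩, h5⟩ | ⟨⟨h2, h3⟩, h5⟩) | ⟨h2, h5⟩
  · have hr : r = 4 * i := by omega
    rw [← hr] at hp
    rw [h2, h3, hp]
    have e : ∀ a < 14, mP a = true → mQ a = false ∧ mTri a = false ∧ mIn a = false := by decide
    rw [(e _ h4 h5).1, (e _ h4 h5).2.1, (e _ h4 h5).2.2]
    simp [mQ, mTri, mIn]
  · have hr : r = 4 * i := by omega
    rw [← hr] at hp
    rw [h2, h3, hp, h5]
    simp [mQ, mTri, mIn]
  · have hr : r = 4 * i + 1 := by omega
    rw [← hr] at hq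
    rw [h2, hq, h5]
    have e : ∀ a < 14, mTri a = true → mQ a = false := by decide
    have : mQ (rel (4 * i) r') = false := e _ h4 h5
    rw [this]
    have e1 : mQ 1 = false := rfl
    have e2 : mTri 1 = false := rfl
    have e3 : mIn 1 = true := rfl
    have e4 : L (i + 1) = 2 * L i + 2 := rfl
    rw [e1, e2, e3, e4]
    cases s i
    · simp
    · simp only [Bool.false_eq_true, if_false, if_true]
      have : 2 * L i + 2 - 1 - L i - (1 + L i) = 0 := by ring
      rw [this]
      simp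

theorem phi_lip (r r' : ℕ) (s s' : ℕ → Bool) (ha : yadj r r')
    (h0 : forb 0 (rel 0 r) (rel 0 r') = false) (n : ℕ)
    (h : ∀ i < n, R0 (rel (4 * i) r) (s i) (rel (4 * i) r') (s' i) = true) :
    |phi r s n - phi r' s' n| ≤ 1 := by
  induction n with
  | zero =>
    have h1 := rel_spec 0 r
    have h2 := rel_spec 0 r'
    simp only [forb, Bool.or_eq_false_iff, Bool.and_eq_false_iff, beq_eq_false_iff_ne] at h0
    simp only [phi]
    unfold yadj yadj0 at ha
    split_ifs <;> first | (norm_num; done) | (exfalso; omega)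
  | succ n ih =>
    have ih' := ih (fun i hi => h i (by omega))
    have hn := h n (by omega)
    simp only [R0, Bool.or_eq_true, Bool.and_eq_true, beq_iff_eq] at hn
    have h3 := rel_lt (4 * n) r
    have h4 := rel_lt (4 * n) r'
    rcases hn with ((((⟨⟨h1, h2⟩, h5⟩ | ⟨h1, h2⟩) | ⟨h1, h2⟩) | ⟨h1, h2⟩) | h1) | h1
    · have e : ∀ a < 14, mIn a = true → mQ a = false ∧ mTri a = false := by decide
      simp only [phi, h1, h2, (e _ h3 h1).1, (e _ h3 h1).2, (e _ h4 h2).1, (e _ h4 h2).2, ← h5]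
      cases s n
      · simpa using ih'
      · simp only [Bool.false_eq_true, if_false, if_true]
        rw [abs_sub_comm] at ih'
        convert ih' using 2
        ring
    · have e : ∀ a < 14, mTri a = true → mQ a = false := by decide
      simp [phi, h1, h2, e _ h3 h1, e _ h4 h2]
    · have e : ∀ a < 14, mP a = true → mQ a = false ∧ mTri a = false ∧ mIn a = false := by decide
      simp [phi, e _ h3 h1, e _ h4 h2]
    · simp [phi, h1, h2]
    · exact phi_R1 r r' s s' n h1
    · rw [abs_sub_comm]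
      exact phi_R1 r' r s' s n h1

end Pool.Agent.Lib.MP_5b8c2d_co
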