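import Mathlib

set_option autoImplicit false

namespace Pool.Agent.Lib.MP_5b8c2d_co

/-- The friends-and-strangers graph `FS(X, Y)`: vertices are bijections `V(X) ≃ V(Y)`; two are
adjacent when they differ by exchanging the images of the ends of an edge `ab` of `X` whose
images form an edge of `Y`. -/
def FS {α β : Type} (X : SimpleGraph α) (Y : SimpleGraph β) : SimpleGraph (α ≃ β) where
  Adj σ τ := ∃ a b, X.Adj a b ∧ Y.Adj (σ a) (σ b) ∧ τ a = σ b ∧ τ b = σ a ∧
    ∀ v, v ≠ a → v ≠ b → τ v = σ v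
  symm := ⟨by
    rintro σ τ ⟨a, b, h1, h2, h3, h4, h5⟩
    refine ⟨a, b, h1, ?_, h4.symm, h3.symm, fun v ha hb => (h5 v ha hb).symm⟩
    rw [h3, h4]
    exact h2.symm⟩
  loopless := ⟨by
    rintro σ ⟨a, b, h1, -, h3, -, -⟩
    exact h1.ne (σ.injective h3)⟩

end Pool.Agent.Lib.MP_5b8c2d_co
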