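import Pool.Agent.Lib.MP_5b8c2d_co.Step
import Pool.Agent.Lib.MP_5b8c2d_co.Defs

set_option autoImplicit false

namespace Pool.Agent.Lib.MP_5b8c2d_co

def T (N : ℕ) : SimpleGraph (Fin N) := SimpleGraph.fromRel (fun a b => tadj a b)
def Y (N : ℕ) : SimpleGraph (Fin N) := SimpleGraph.fromRel (fun a b => yadj0 a b)

theorem tadj_ne {a b : ℕ} (h : tadj a b) : a ≠ b := by unfold tadj at h; omega
theorem yadj_ne {a b : ℕ} (h : yadj a b) : a ≠ b := by unfold yadj yadj0 at h; omega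

theorem Y_adj {N : ℕ} (a b : Fin N) : (Y N).Adj a b ↔ yadj a b := by
  unfold Y
  rw [SimpleGraph.fromRel_adj]
  constructor
  · exact fun h => h.2
  · exact fun h => ⟨fun e => yadj_ne h (congrArg Fin.val e), h⟩

theorem T_adj {N : ℕ} (a b : Fin N) : (T N).Adj a b ↔ tadj a b ∨ tadj b a := by
  unfold T
  rw [SimpleGraph.fromRel_adj]
  constructor
  · exact fun h => h.2
  · refine fun h => ⟨fun e => ?_, h⟩
    rcases h with h | h
    · exact tadj_ne h (congrArg Fin.val e)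
    · exact tadj_ne h (congrArg Fin.val e.symm)

def par (b : ℕ) : ℕ := if b < 4 ∨ b % 4 = 0 ∨ b % 4 = 3 then 0 else b - b % 4

theorem par_le (b : ℕ) : par b ≤ b := by unfold par; split_ifs <;> omega

theorem par_of_tadj {a b : ℕ} (h : tadj a b) : a = par b ∧ b ≠ 0 := by
  unfold tadj at h; unfold par; split_ifs <;> omega

theorem tadj_par {b : ℕ} (h : b ≠ 0) : tadj (par b) b ∧ par b < b := by
  unfold tadj par; split_ifs <;> omega

theorem T_isTree (n : ℕ) : (T (n + 1)).IsTree := by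
  classical
  have hreach : ∀ (b : ℕ) (hb : b < n + 1), (T (n + 1)).Reachable 0 ⟨b, hb⟩ := by
    intro b
    induction b using Nat.strong_induction_on with
    | _ b ih =>
      intro hb
      by_cases h0 : b = 0
      · subst h0
        exact SimpleGraph.Reachable.refl _
      · have h1 := tadj_par h0
        refine (ih (par b) h1.2 (by omega)).trans (SimpleGraph.Adj.reachable ?_)
        rw [T_adj]
        exact Or.inl h1.1
  have hconn : (T (n + 1)).Connected := by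
    rw [SimpleGraph.connected_iff_exists_forall_reachable]
    exact ⟨0, fun w => hreach w.1 w.2⟩
  rw [SimpleGraph.isTree_iff_connected_and_card]
  refine ⟨hconn, le_antisymm ?_ hconn.card_vert_le_card_edgeSet_add_one⟩
  have hsurj : (T (n + 1)).edgeSet ⊆ Set.range (fun v : Fin n =>
      s((⟨par (v + 1), by have := par_le (v + 1); omega⟩ : Fin (n + 1)), v.succ)) := by
    intro e he
    induction e using Sym2.ind with
    | _ a b =>
      rw [SimpleGraph.mem_edgeSet, T_adj] at he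
      rcases he with h | h
      · have h1 := par_of_tadj h
        refine ⟨⟨b - 1, by omega⟩, ?_⟩
        have : (b : ℕ) - 1 + 1 = b := by omega
        simp only [Sym2.eq_iff, Fin.ext_iff, Fin.val_succ, this]
        exact Or.inl ⟨h1.1.symm, trivial⟩
      · have h1 := par_of_tadj h
        refine ⟨⟨a - 1, by omega⟩, ?_⟩
        have : (a : ℕ) - 1 + 1 = a := by omega
        simp only [Sym2.eq_iff, Fin.ext_iff, Fin.val_succ, this]
        exact Or.inr ⟨h1.1.symm, trivial⟩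
  have h1 := Nat.card_mono (Set.toFinite _) hsurj
  have h2 := Finite.card_range_le (fun v : Fin n =>
      s((⟨par (v + 1), by have := par_le (v + 1); omega⟩ : Fin (n + 1)), v.succ))
  simp only [Nat.card_eq_fintype_card, Fintype.card_fin] at h1 h2 ⊢
  omega

/-- position of a token, extended by the identity -/
def pos {N : ℕ} (σ : Fin N ≃ Fin N) (t : ℕ) : ℕ := if h : t < N then (σ ⟨t, h⟩ : ℕ) else t

theorem pos_fin {N : ℕ} (σ : Fin N ≃ Fin N) (t : Fin N) : pos σ t = σ t := by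
  simp [pos]

theorem pos_lt {N : ℕ} (σ : Fin N ≃ Fin N) {t : ℕ} (h : t < N) : pos σ t < N := by
  simp [pos, h]

theorem pos_inj {N : ℕ} (σ : Fin N ≃ Fin N) : Function.Injective (pos σ) := by
  intro a b h
  unfold pos at h
  split_ifs at h with h1 h2 h2
  · exact congrArg Fin.val (σ.injective (Fin.ext h))
  · have := (σ ⟨a, h1⟩).2; omega
  · have := (σ ⟨b, h2⟩).2; omega
  · exact h

theorem mv_of_eq {N : ℕ} {σ τ : Fin N ≃ Fin N} {a b : Fin N} (h1 : tadj a b)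
    (h2 : yadj (σ a) (σ b)) (h3 : τ a = σ b) (h4 : τ b = σ a)
    (h5 : ∀ v, v ≠ a → v ≠ b → τ v = σ v) : Mv (pos σ) (pos τ) a b := by
  refine ⟨h1, by rwa [pos_fin, pos_fin], by rw [pos_fin, pos_fin, h3],
    by rw [pos_fin, pos_fin, h4], fun t ha hb => ?_⟩
  unfold pos
  split_ifs with h
  · rw [h5 ⟨t, h⟩ (fun e => ha (congrArg Fin.val e)) (fun e => hb (congrArg Fin.val e))]
  · rfl

theorem mv_of_adj {N : ℕ} {σ τ : Fin N ≃ Fin N} (h : (FS (T N) (Y N)).Adj σ τ) :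
    ∃ a b, b < N ∧ Mv (pos σ) (pos τ) a b := by
  obtain ⟨a, b, h1, h2, h3, h4, h5⟩ := h
  rw [T_adj] at h1
  rw [Y_adj] at h2
  rcases h1 with h1 | h1
  · exact ⟨a, b, b.2, mv_of_eq h1 h2 h3 h4 h5⟩
  · exact ⟨b, a, a.2, mv_of_eq h1 (yadj_symm h2) h4 h3 (fun v ha hb => h5 v hb ha)⟩

theorem exists_move {N : ℕ} (σ : Fin N ≃ Fin N) {a b : ℕ} (ha : a < N) (hb : b < N)
    (h1 : tadj a b) (h2 : yadj (pos σ a) (pos σ b)) :
    ∃ τ, (FS (T N) (Y N)).Adj σ τ ∧ Mv (pos σ) (pos τ) a b := by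
  have h2' : yadj (σ ⟨a, ha⟩) (σ ⟨b, hb⟩) := by
    rw [← pos_fin, ← pos_fin]; exact h2
  have e1 : ((Equiv.swap (⟨a, ha⟩ : Fin N) ⟨b, hb⟩).trans σ) ⟨a, ha⟩ = σ ⟨b, hb⟩ := by simp
  have e2 : ((Equiv.swap (⟨a, ha⟩ : Fin N) ⟨b, hb⟩).trans σ) ⟨b, hb⟩ = σ ⟨a, ha⟩ := by simp
  have e3 : ∀ v, v ≠ ⟨a, ha⟩ → v ≠ ⟨b, hb⟩ →
      ((Equiv.swap (⟨a, ha⟩ : Fin N) ⟨b, hb⟩).trans σ) v = σ v := by
    intro v h3 h4
    simp [Equiv.swap_apply_of_ne_of_ne h3 h4]
  refine ⟨(Equiv.swap ⟨a, ha⟩ ⟨b, hb⟩).trans σ, ⟨⟨a, ha⟩, ⟨b, hb⟩, ?_, ?_, e1, e2, e3⟩, ?_⟩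
  · rw [T_adj]; exact Or.inl h1
  · rw [Y_adj]; exact h2'
  · exact mv_of_eq (a := ⟨a, ha⟩) (b := ⟨b, hb⟩) h1 h2' e1 e2 e3

section
variable {n : ℕ}

theorem step_adj {σ τ : Fin (4 * n + 4) ≃ Fin (4 * n + 4)}
    (h : (FS (T _) (Y _)).Adj σ τ) (hG : Good n (pos σ)) :
    Good n (pos τ) ∧ |phi (pos σ 0) (bit (pos σ)) n - phi (pos τ 0) (bit (pos τ)) n| ≤ 1 ∧
      ∀ i < n, pos σ 0 < 4 * i + 4 → pos τ 0 < 4 * i + 4 → bit (pos τ) i = bit (pos σ) i := by
  obtain ⟨a, b, hb, hm⟩ := mv_of_adj h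
  exact step (pos_inj σ) (pos_lt σ (by omega)) (pos_lt σ hb) hG hm

theorem walk_lip {σ τ : Fin (4 * n + 4) ≃ Fin (4 * n + 4)}
    (p : (FS (T _) (Y _)).Walk σ τ) (hG : Good n (pos σ)) :
    |phi (pos σ 0) (bit (pos σ)) n - phi (pos τ 0) (bit (pos τ)) n| ≤ p.length := by
  induction p with
  | nil => simp
  | cons h p ih =>
    have h1 := step_adj h hG
    have h2 := ih h1.1
    have h3 := abs_sub_le (phi (pos _ 0) (bit (pos _)) n) _ _ |>.trans (add_le_add h1.2.1 h2)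
    rw [SimpleGraph.Walk.length_cons]
    push_cast
    linarith

/-- reachability that keeps the switches of the levels above `j` -/
def Rel (j : ℕ) (σ τ : Fin (4 * n + 4) ≃ Fin (4 * n + 4)) : Prop :=
  (FS (T _) (Y _)).Reachable σ τ ∧ Good n (pos τ) ∧
    ∀ i, j ≤ i → i < n → bit (pos τ) i = bit (pos σ) i

theorem Rel.refl (j : ℕ) {σ : Fin (4 * n + 4) ≃ Fin (4 * n + 4)} (hG : Good n (pos σ)) :
    Rel j σ σ := ⟨SimpleGraph.Reachable.refl _, hG, fun _ _ _ => rfl⟩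

theorem Rel.trans {j : ℕ} {σ τ υ : Fin (4 * n + 4) ≃ Fin (4 * n + 4)} (h1 : Rel j σ τ)
    (h2 : Rel j τ υ) : Rel j σ υ :=
  ⟨h1.1.trans h2.1, h2.2.1, fun i a b => (h2.2.2 i a b).trans (h1.2.2 i a b)⟩

theorem Rel.succ {j : ℕ} {σ τ : Fin (4 * n + 4) ≃ Fin (4 * n + 4)} (h1 : Rel j σ τ) :
    Rel (j + 1) σ τ := ⟨h1.1, h1.2.1, fun i a b => h1.2.2 i (by omega) b⟩

theorem Rel.of_adj {j : ℕ} {σ τ : Fin (4 * n + 4) ≃ Fin (4 * n + 4)}
    (h : (FS (T _) (Y _)).Adj σ τ) (hG : Good n (pos σ)) (h1 : pos σ 0 < 4 * j + 4)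
    (h2 : pos τ 0 < 4 * j + 4) : Rel j σ τ :=
  ⟨h.reachable, (step_adj h hG).1,
    fun i a b => (step_adj h hG).2.2 i b (by omega) (by omega)⟩

theorem eq_of_rel {B v c : ℕ} (h : rel B v = c) (hc : c < 12) : v = B + c := by
  have := rel_spec B v
  omega

/-- the root moves to a neighbouring cell that holds no wall -/
theorem rmove (j : ℕ) (σ : Fin (4 * n + 4) ≃ Fin (4 * n + 4)) (hG : Good n (pos σ)) (c : ℕ)
    (hc : c < 4 * n + 4) (hy : yadj (pos σ 0) c) (h1 : pos σ 0 < 4 * j + 4) (h2 : c < 4 * j + 4)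
    (hw : ∀ i < n, pos σ (4 * i + 5) ≠ c ∧ pos σ (4 * i + 6) ≠ c) :
    ∃ τ, Rel j σ τ ∧ pos τ 0 = c ∧ ∀ t, t ≠ 0 → pos σ t ≠ c → pos τ t = pos σ t := by
  obtain ⟨b, hb⟩ : ∃ b : Fin (4 * n + 4), pos σ b = c :=
    ⟨σ.symm ⟨c, hc⟩, by rw [pos_fin]; simp⟩
  have hb0 : (b : ℕ) ≠ 0 := by
    intro e
    rw [e] at hb
    exact yadj_ne hy hb
  have ht : tadj 0 b := by
    refine Or.inl ⟨rfl, hb0, ?_⟩
    by_contra hcon
    have hb2 := b.2
    have := hw ((b - 4) / 4) (by omega)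
    by_cases h5 : (b : ℕ) % 4 = 1
    · exact this.1 (by rw [← hb]; congr 1; omega)
    · exact this.2 (by rw [← hb]; congr 1; omega)
  obtain ⟨τ, h3, h4⟩ := exists_move σ (by omega) b.2 ht (by rwa [hb])
  have h5 : pos τ 0 = c := h4.2.2.1.trans hb
  refine ⟨τ, Rel.of_adj h3 hG h1 (by omega), h5, fun t h6 h7 => h4.2.2.2.2 t h6 ?_⟩
  rintro rfl
  exact h7 hb

/-- the root swaps with the key of level `i + 1` -/
theorem kswap (j i : ℕ) (hi : i < n) (σ : Fin (4 * n + 4) ≃ Fin (4 * n + 4))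
    (hG : Good n (pos σ)) (hy : yadj (pos σ 0) (pos σ (4 * i + 4)))
    (h1 : pos σ 0 < 4 * j + 4) (h2 : pos σ (4 * i + 4) < 4 * j + 4) :
    ∃ τ, Rel j σ τ ∧ pos τ 0 = pos σ (4 * i + 4) ∧ pos τ (4 * i + 4) = pos σ 0 := by
  obtain ⟨τ, h3, h4⟩ := exists_move σ (a := 0) (b := 4 * i + 4) (by omega) (by omega)
    (Or.inl ⟨rfl, by omega, by omega⟩) hy
  exact ⟨τ, Rel.of_adj h3 hG h1 (by rw [h4.2.2.1]; exact h2), h4.2.2.1, h4.2.2.2.1⟩

/-- the key of level `i + 1` is brought to the cell `4 i + c` -/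
theorem kmove (j i : ℕ) (hi : i < n) (σ : Fin (4 * n + 4) ≃ Fin (4 * n + 4))
    (hG : Good n (pos σ)) (h1 : pos σ 0 < 4 * j + 4) (c c' : ℕ) (hc : c < 12) (hc' : c' < 12)
    (hy : yadj (4 * i + c') (4 * i + c))
    (h : rel (4 * i) (pos σ (4 * i + 4)) = c ∨ (rel (4 * i) (pos σ (4 * i + 4)) = c' ∧
      (rel (4 * i) (pos σ (4 * i + 5)) = c ∨ rel (4 * i) (pos σ (4 * i + 6)) = c))) :
    ∃ τ, Rel j σ τ ∧ pos τ 0 = pos σ 0 ∧ pos τ (4 * i + 4) = 4 * i + c := by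
  rcases h with h | ⟨h, h' | h'⟩
  · exact ⟨σ, Rel.refl j hG, rfl, eq_of_rel h hc⟩
  · obtain ⟨τ, h3, h4⟩ := exists_move σ (a := 4 * i + 4) (b := 4 * i + 5) (by omega) (by omega)
      (Or.inr ⟨by omega, by omega, by omega⟩) (by rw [eq_of_rel h hc', eq_of_rel h' hc]; exact hy)
    have e : pos τ 0 = pos σ 0 := h4.2.2.2.2 0 (by omega) (by omega)
    exact ⟨τ, Rel.of_adj h3 hG h1 (by omega), e, h4.2.2.1.trans (eq_of_rel h' hc)⟩
  · obtain ⟨τ, h3, h4⟩ := exists_move σ (a := 4 * i + 4) (b := 4 * i + 6) (by omega) (by omega)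
      (Or.inr ⟨by omega, by omega, by omega⟩) (by rw [eq_of_rel h hc', eq_of_rel h' hc]; exact hy)
    have e : pos τ 0 = pos σ 0 := h4.2.2.2.2 0 (by omega) (by omega)
    exact ⟨τ, Rel.of_adj h3 hG h1 (by omega), e, h4.2.2.1.trans (eq_of_rel h' hc)⟩

theorem wall_aux {B r v : ℕ} (hs : rel B v < 8)
    (h : (rel B v != 1 && rel B v != 2 && rel B v != 3 && (!mIn (rel B r) || rel B v != 0) &&
      (!mQ (rel B r) || rel B v != 5)) = true) :
    B ≤ v ∧ v < B + 8 ∧ v ≠ B + 1 ∧ v ≠ B + 2 ∧ v ≠ B + 3 ∧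
      (r < B + 4 → v ≠ B) ∧ (r = B + 10 ∨ r = B + 11 → v ≠ B + 5) := by
  have h4 : v = B + rel B v := eq_of_rel rfl (by omega)
  generalize rel B v = c at *
  simp only [Bool.and_eq_true, bne_iff_ne, ne_eq, Bool.or_eq_true, Bool.not_eq_true'] at h
  obtain ⟨⟨⟨⟨h1, h2⟩, h3⟩, h5⟩, h6⟩ := h
  refine ⟨by omega, by omega, by omega, by omega, by omega, fun hr => ?_, fun hr => ?_⟩
  · rw [mIn_of_lt hr] at h5
    simp only [Bool.true_eq_false, false_or] at h5
    omega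
  · have : mQ (rel B r) = true := by
      rcases hr with rfl | rfl <;> rw [rel_add _ _ (by omega)] <;> rfl
    rw [this] at h6
    simp only [Bool.true_eq_false, false_or] at h6
    omega

theorem wall_facts {f : ℕ → ℕ} {i : ℕ} (h : Inv f i) (v : ℕ)
    (hv : v = f (4 * i + 5) ∨ v = f (4 * i + 6)) :
    4 * i ≤ v ∧ v < 4 * i + 8 ∧ v ≠ 4 * i + 1 ∧ v ≠ 4 * i + 2 ∧ v ≠ 4 * i + 3 ∧
      (f 0 < 4 * i + 4 → v ≠ 4 * i) ∧ (f 0 = 4 * i + 10 ∨ f 0 = 4 * i + 11 → v ≠ 4 * i + 5) := by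
  have hs := h.small
  have h1 := fin_nw _ (rel_lt _ _) _ (rel_lt _ _) _ (rel_lt _ _) _ (rel_lt _ _) h
  have h2 := fin_nw _ (rel_lt _ _) _ (rel_lt _ _) _ (rel_lt _ _) _ (rel_lt _ _)
    (fin_small _ (rel_lt _ _) _ (rel_lt _ _) _ (rel_lt _ _) _ (rel_lt _ _) h).2.2.2
  rcases hv with rfl | rfl
  · exact wall_aux hs.2.1 h1
  · exact wall_aux hs.2.2 h2

theorem ya {a b : ℕ} (j c c' : ℕ) (ha : a = 4 * j + c) (hb : b = 4 * j + c') (h : yadj c c') :
    yadj a b := by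
  subst ha hb
  unfold yadj yadj0 at *
  rcases h with (h | h | h) | (h | h | h)
  · exact Or.inl (Or.inl (by omega))
  · exact Or.inl (Or.inr (Or.inl (by omega)))
  · exact Or.inl (Or.inr (Or.inr (by omega)))
  · exact Or.inr (Or.inl (by omega))
  · exact Or.inr (Or.inr (Or.inl (by omega)))
  · exact Or.inr (Or.inr (Or.inr (by omega)))

theorem ys (s : ℕ) (hs : s < 2) : yadj s (3 - s) ∧ yadj (3 - s) (2 + s) ∧ yadj (2 + s) (1 - s) ∧
    yadj (5 - s) 0 ∧ yadj (4 + s) 0 ∧ yadj 1 (6 + s) ∧ yadj (4 + s) (7 - s) ∧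
    yadj (6 + s) (7 - s) ∧ yadj (7 - s) 1 ∧ yadj (6 + s) (5 - s) ∧ yadj 0 (5 - s) := by
  interval_cases s <;> simp [yadj, yadj0]

theorem traverse (j : ℕ) (hj : j ≤ n) : ∀ s < 2, ∀ σ : Fin (4 * n + 4) ≃ Fin (4 * n + 4),
    Good n (pos σ) → pos σ 0 = 4 * j + s → ∃ τ, Rel j σ τ ∧ pos τ 0 = 4 * j + (1 - s) := by
  induction j with
  | zero =>
    intro s hs σ hG h0
    have nw : ∀ (τ : Fin (4 * n + 4) ≃ Fin (4 * n + 4)), Good n (pos τ) → pos τ 0 < 4 →
        ∀ c < 4, ∀ i < n, pos τ (4 * i + 5) ≠ c ∧ pos τ (4 * i + 6) ≠ c := by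
      intro τ hτ h4 c hc i hi
      have a1 := wall_facts (hτ i hi) _ (Or.inl rfl)
      have a2 := wall_facts (hτ i hi) _ (Or.inr rfl)
      omega
    obtain ⟨σ1, r1, p1, -⟩ := rmove 0 σ hG (3 - s) (by omega)
      (ya 0 _ _ h0 (by omega) (ys s hs).1) (by omega) (by omega) (nw σ hG (by omega) _ (by omega))
    obtain ⟨σ2, r2, p2, -⟩ := rmove 0 σ1 r1.2.1 (2 + s) (by omega)
      (by rw [p1]; exact (ys s hs).2.1) (by omega) (by omega)
      (nw σ1 r1.2.1 (by omega) _ (by omega))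
    obtain ⟨σ3, r3, p3, -⟩ := rmove 0 σ2 r2.2.1 (1 - s) (by omega)
      (by rw [p2]; exact (ys s hs).2.2.1) (by omega) (by omega)
      (nw σ2 r2.2.1 (by omega) _ (by omega))
    exact ⟨σ3, (r1.trans r2).trans r3, by omega⟩
  | succ j ih =>
    intro s hs σ hG h0
    have hj' : j < n := by omega
    have ih' := ih (by omega)
    obtain ⟨-, -, -, y1, y2, y3, y4, y5, y6, y7, y8⟩ := ys s hs
    have rl : ∀ v c, c < 12 → v = 4 * j + c → rel (4 * j) v = c := by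
      rintro v c hc rfl
      exact rel_add _ _ hc
    -- A: key to p(j)
    have hI := hG j hj'
    unfold Inv at hI
    rw [rl _ (4 + s) (by omega) (by omega)] at hI
    obtain ⟨σ1, r1, p1, k1⟩ := kmove (j + 1) j hj' σ hG (by omega) 0 (5 - s) (by omega) (by omega)
      (ya j _ _ rfl rfl y1)
      (F1 s hs _ (rel_lt _ _) _ (rel_lt _ _) _ (rel_lt _ _) hI)
    -- B: swap
    obtain ⟨σ2, r2, p2, k2⟩ := kswap (j + 1) j hj' σ1 r1.2.1
      (ya j _ _ (by omega) k1 y2) (by omega) (by omega)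
    have hI2 := r2.2.1 j hj'
    unfold Inv at hI2
    have b2 : bit (pos σ2) j = (s == 1) := by
      unfold bit
      rw [rl _ 0 (by omega) (by omega), rl _ (4 + s) (by omega) (by omega)] at hI2
      rw [rl _ (4 + s) (by omega) (by omega)]
      exact F2 s hs _ (rel_lt _ _) _ (rel_lt _ _) hI2
    -- C: traverse the lower machine
    obtain ⟨σ3, r3, p3⟩ := ih' 0 (by omega) σ2 r2.2.1 (by omega)
    have b3 : bit (pos σ3) j = (s == 1) := (r3.2.2 j le_rfl hj').trans b2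
    have hI3 := r3.2.1 j hj'
    unfold Inv at hI3
    rw [rl _ 1 (by omega) (by omega)] at hI3
    have f3 := F3 s hs _ (rel_lt _ _) _ (rel_lt _ _) _ (rel_lt _ _) hI3 b3
    have g3 : ∀ v, rel (4 * j) v ≠ 6 + s → v ≠ 4 * j + (6 + s) :=
      fun v h e => h (rl _ _ (by omega) e)
    -- D: into the triangle
    obtain ⟨σ4, r4, p4, u4⟩ := rmove (j + 1) σ3 r3.2.1 (4 * j + (6 + s)) (by omega)
      (ya j _ _ p3 rfl y3) (by omega) (by omega) (by
        intro i hi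
        have a1 := wall_facts (r3.2.1 i hi) _ (Or.inl rfl)
        have a2 := wall_facts (r3.2.1 i hi) _ (Or.inr rfl)
        by_cases hij : i = j
        · subst hij
          exact ⟨g3 _ f3.2.1, g3 _ f3.2.2⟩
        · omega)
    have k4 : pos σ4 (4 * j + 4) = pos σ3 (4 * j + 4) := u4 _ (by omega) (g3 _ f3.1)
    have k4' : rel (4 * j) (pos σ4 (4 * j + 4)) ≠ 1 := by
      intro e
      have e1 := eq_of_rel e (by omega)
      have : pos σ3 (4 * j + 4) = pos σ3 0 := by omega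
      have := pos_inj σ3 this
      omega
    have hI4 := r4.2.1 j hj'
    unfold Inv at hI4
    rw [rl _ (6 + s) (by omega) p4] at hI4
    -- E: key to the other triangle cell
    obtain ⟨σ5, r5, p5, k5⟩ := kmove (j + 1) j hj' σ4 r4.2.1 (by omega) (7 - s) (4 + s)
      (by omega) (by omega) (ya j _ _ rfl rfl y4)
      (F4 s hs _ (rel_lt _ _) _ (rel_lt _ _) _ (rel_lt _ _) hI4 k4')
    -- F: swap
    obtain ⟨σ6, r6, p6, k6⟩ := kswap (j + 1) j hj' σ5 r5.2.1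
      (ya j _ _ (p5.trans p4) k5 y5) (by omega) (by omega)
    -- G: out of the triangle
    obtain ⟨σ7, r7, p7, u7⟩ := rmove (j + 1) σ6 r6.2.1 (4 * j + 1) (by omega)
      (ya j _ _ (p6.trans k5) rfl y6) (by omega) (by omega) (by
        intro i hi
        have a1 := wall_facts (r6.2.1 i hi) _ (Or.inl rfl)
        have a2 := wall_facts (r6.2.1 i hi) _ (Or.inr rfl)
        omega)
    have k7 : pos σ7 (4 * j + 4) = 4 * j + (6 + s) := by
      rw [u7 _ (by omega) (by omega)]; omega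
    have hI7 := r7.2.1 j hj'
    unfold Inv at hI7
    have b7 : bit (pos σ7) j = (s == 0) := by
      unfold bit
      rw [rl _ 1 (by omega) p7, rl _ (6 + s) (by omega) k7] at hI7
      rw [rl _ (6 + s) (by omega) k7]
      exact F5 s hs _ (rel_lt _ _) _ (rel_lt _ _) hI7
    -- H: traverse back
    obtain ⟨σ8, r8, p8⟩ := ih' 1 (by omega) σ7 r7.2.1 p7
    have b8 : bit (pos σ8) j = (s == 0) := (r8.2.2 j le_rfl hj').trans b7
    have hI8 := r8.2.1 j hj'
    unfold Inv at hI8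
    rw [rl _ 0 (by omega) (by omega)] at hI8
    obtain ⟨σ9, r9, p9, k9⟩ := kmove (j + 1) j hj' σ8 r8.2.1 (by omega) (5 - s) (6 + s)
      (by omega) (by omega) (ya j _ _ rfl rfl y7)
      (F6 s hs _ (rel_lt _ _) _ (rel_lt _ _) _ (rel_lt _ _) hI8 b8)
    obtain ⟨σ10, r10, p10, -⟩ := kswap (j + 1) j hj' σ9 r9.2.1
      (ya j _ _ (p9.trans p8) k9 y8) (by omega) (by omega)
    refine ⟨σ10, ((((((((r1.trans r2).trans r3.succ).trans r4).trans r5).trans r6).trans r7).trans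
      r8.succ).trans r9).trans r10, by omega⟩

def flipN (t : ℕ) : ℕ := if 4 ≤ t ∧ t % 4 = 2 then t + 1 else if 4 ≤ t ∧ t % 4 = 3 then t - 1 else t

def flip (n : ℕ) (t : Fin (4 * n + 4)) : Fin (4 * n + 4) :=
  ⟨flipN t, by have := t.2; unfold flipN; split_ifs <;> omega⟩

theorem flip_inv (n : ℕ) : Function.Involutive (flip n) := by
  intro t
  apply Fin.ext
  simp only [flip, flipN]
  split_ifs <;> omega

theorem exists_start (j : ℕ) (hj : j ≤ n) : ∃ σ : Fin (4 * n + 4) ≃ Fin (4 * n + 4),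
    Good n (pos σ) ∧ pos σ 0 = 4 * j ∧ ∀ i, j ≤ i → i < n → bit (pos σ) i = false := by
  induction j with
  | zero =>
    have hp : ∀ t < 4 * n + 4, pos (flip_inv n).toPerm t = flipN t := by
      intro t ht
      simp [pos, ht, flip]
    have h0 : pos (flip_inv n).toPerm 0 = 0 := by rw [hp 0 (by omega)]; rfl
    have h4 : ∀ i < n, rel (4 * i) (pos (flip_inv n).toPerm (4 * i + 4)) = 4 := by
      intro i hi
      rw [hp _ (by omega)]
      have : flipN (4 * i + 4) = 4 * i + 4 := by unfold flipN; split_ifs <;> omega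
      rw [this, rel_add _ _ (by omega)]
    have h5 : ∀ i < n, rel (4 * i) (pos (flip_inv n).toPerm (4 * i + 5)) = 5 := by
      intro i hi
      rw [hp _ (by omega)]
      have : flipN (4 * i + 5) = 4 * i + 5 := by unfold flipN; split_ifs <;> omega
      rw [this, rel_add _ _ (by omega)]
    have h6 : ∀ i < n, rel (4 * i) (pos (flip_inv n).toPerm (4 * i + 6)) = 7 := by
      intro i hi
      rw [hp _ (by omega)]
      have : flipN (4 * i + 6) = 4 * i + 7 := by unfold flipN; split_ifs <;> omega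
      rw [this, rel_add _ _ (by omega)]
    refine ⟨(flip_inv n).toPerm, fun i hi => ?_, h0, fun i _ hi => ?_⟩
    · unfold Inv
      rw [h4 i hi, h5 i hi, h6 i hi, h0]
      have := mIn_of_lt (B := 4 * i) (r := 0) (by omega)
      simp [I0, this, W]
    · unfold bit
      rw [h4 i hi, h5 i hi, h6 i hi]
      rfl
  | succ j ih =>
    obtain ⟨σ, hG, h0, hb⟩ := ih (by omega)
    have hj' : j < n := by omega
    have hI := hG j hj'
    unfold Inv at hI
    rw [h0, show rel (4 * j) (4 * j) = 0 from rel_add (4 * j) 0 (by omega)] at hI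
    obtain ⟨σ1, r1, p1, k1⟩ := kmove (j + 1) j hj' σ hG (by omega) 4 7
      (by omega) (by omega) (by unfold yadj yadj0; omega)
      (F6 1 (by omega) _ (rel_lt _ _) _ (rel_lt _ _) _ (rel_lt _ _) hI (hb j le_rfl hj'))
    obtain ⟨σ2, r2, p2, -⟩ := kswap (j + 1) j hj' σ1 r1.2.1
      (by rw [p1, k1, h0]; unfold yadj yadj0; omega) (by omega) (by omega)
    refine ⟨σ2, r2.2.1, by omega, fun i h1 h2 => ?_⟩
    rw [(r1.trans r2).2.2 i h1 h2]
    exact hb i (by omega) h2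

theorem main (n : ℕ) : ∃ σ τ : Fin (4 * n + 4) ≃ Fin (4 * n + 4),
    (FS (T _) (Y _)).Reachable σ τ ∧ 2 ^ (n + 1) ≤ (FS (T _) (Y _)).dist σ τ := by
  obtain ⟨σ, hG, h0, -⟩ := exists_start n le_rfl
  obtain ⟨τ, r, h1⟩ := traverse n le_rfl 0 (by omega) σ hG h0
  refine ⟨σ, τ, r.1, ?_⟩
  obtain ⟨p, hp⟩ := r.1.exists_walk_length_eq_dist
  have h2 := walk_lip p hG
  rw [h0, h1, phi_p, phi_q, hp, zero_sub, abs_neg] at h2
  have h3 := ((L_ge n).trans (le_abs_self _)).trans h2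
  exact_mod_cast h3

end

end Pool.Agent.Lib.MP_5b8c2d_co
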