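import Pool.Agent.Lib.MP_5b8c2d_co.Arith

set_option autoImplicit false

namespace Pool.Agent.Lib.MP_5b8c2d_co

def Good (n : ℕ) (f : ℕ → ℕ) : Prop := ∀ i < n, Inv f i

def Mv (f g : ℕ → ℕ) (a b : ℕ) : Prop :=
  tadj a b ∧ yadj (f a) (f b) ∧ g a = f b ∧ g b = f a ∧ ∀ t, t ≠ a → t ≠ b → g t = f t

theorem rel_ne {B u v : ℕ} (hv : rel B v < 8) (h : u ≠ v) : rel B u ≠ rel B v := by
  have h1 := rel_spec B u
  have h2 := rel_spec B v
  omega

theorem Inv.small {f : ℕ → ℕ} {i : ℕ} (h : Inv f i) :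
    rel (4 * i) (f (4 * i + 4)) < 8 ∧ rel (4 * i) (f (4 * i + 5)) < 8 ∧
      rel (4 * i) (f (4 * i + 6)) < 8 := by
  have := fin_small _ (rel_lt _ _) _ (rel_lt _ _) _ (rel_lt _ _) _ (rel_lt _ _) h
  exact ⟨this.1, this.2.1, this.2.2.1⟩

theorem forb_shift (B r r' : ℕ) (h : forb 0 (rel (B + 4) r) (rel (B + 4) r') = false) :
    forb 4 (rel B r) (rel B r') = false := by
  have h1 := rel_spec B r
  have h2 := rel_spec B r'
  have h3 := rel_spec (B + 4) r
  have h4 := rel_spec (B + 4) r'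
  simp only [forb, Bool.or_eq_false_iff, Bool.and_eq_false_iff, beq_eq_false_iff_ne] at h ⊢
  omega

theorem step_root {n : ℕ} {f g : ℕ → ℕ} {b : ℕ} (hf : Function.Injective f)
    (_h0 : f 0 < 4 * n + 4) (hb : f b < 4 * n + 4) (hG : Good n f) (hm : Mv f g 0 b) :
    forb 0 (rel 0 (f 0)) (rel 0 (g 0)) = false ∧ ∀ i < n, Inv g i ∧
      R0 (rel (4 * i) (f 0)) (bit f i) (rel (4 * i) (g 0)) (bit g i) = true := by
  obtain ⟨ht, hy, hg0, hgb, hoth⟩ := hm
  have hb' : b ≠ 0 ∧ (b < 4 ∨ b % 4 = 0 ∨ b % 4 = 3) := by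
    unfold tadj at ht
    omega
  have hforb : ∀ i ≤ n, forb 0 (rel (4 * i) (f 0)) (rel (4 * i) (f b)) = false := by
    intro i hi
    rcases Nat.lt_or_ge i n with h | h
    · have hs := (hG i h).small
      refine fin_forb _ (rel_lt _ _) _ (rel_lt _ _) _ (rel_lt _ _) _ (rel_lt _ _) (hG i h) _
        (rel_lt _ _) (rel_ne hs.2.1 (hf.ne (by omega))) (rel_ne hs.2.2 (hf.ne (by omega)))
    · have h1 := rel_spec (4 * i) (f 0)
      have h2 := rel_spec (4 * i) (f b)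
      simp only [forb, Bool.or_eq_false_iff, Bool.and_eq_false_iff, beq_eq_false_iff_ne]
      omega
  refine ⟨by rw [hg0]; exact hforb 0 (by omega), fun i hi => ?_⟩
  have hE := E0_of_adj (B := 4 * i) (by omega) hy
  have hs := (hG i hi).small
  have e5 : g (4 * i + 5) = f (4 * i + 5) := hoth _ (by omega) (by omega)
  have e6 : g (4 * i + 6) = f (4 * i + 6) := hoth _ (by omega) (by omega)
  unfold Inv bit
  by_cases hk : b = 4 * i + 4
  · subst hk
    rw [hg0, hgb, e5, e6]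
    exact fin_key _ (rel_lt _ _) _ (rel_lt _ _) _ (rel_lt _ _) _ (rel_lt _ _) (hG i hi) hE
  · have e4 : g (4 * i + 4) = f (4 * i + 4) := hoth _ (by omega) (by omega)
    rw [hg0, e4, e5, e6]
    exact fin_free _ (rel_lt _ _) _ (rel_lt _ _) _ (rel_lt _ _) _ (rel_lt _ _) (hG i hi) _
      (rel_lt _ _) hE (rel_ne hs.1 (hf.ne hk)) (rel_ne hs.2.1 (hf.ne (by omega)))
      (rel_ne hs.2.2 (hf.ne (by omega))) (forb_shift _ _ _ (hforb (i + 1) (by omega)))

theorem step_wall {n : ℕ} {f g : ℕ → ℕ} {a b : ℕ} (ha : a ≠ 0) (hG : Good n f)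
    (hm : Mv f g a b) : g 0 = f 0 ∧ ∀ i < n, Inv g i ∧ bit g i = bit f i := by
  obtain ⟨ht, hy, hga, hgb, hoth⟩ := hm
  have hb' : 4 ≤ a ∧ a % 4 = 0 ∧ (b = a + 1 ∨ b = a + 2) := by
    unfold tadj at ht
    omega
  have e0 : g 0 = f 0 := hoth _ (by omega) (by omega)
  refine ⟨e0, fun i hi => ?_⟩
  have hE := E0_of_adj (B := 4 * i) (by omega) hy
  have hI := hG i hi
  unfold Inv bit at *
  by_cases hk : a = 4 * i + 4
  · subst hk
    rcases hb'.2.2 with hb | hb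
    · subst hb
      have e6 : g (4 * i + 6) = f (4 * i + 6) := hoth _ (by omega) (by omega)
      rw [e0, hga, hgb, e6]
      refine ⟨fin_wall _ (rel_lt _ _) _ (rel_lt _ _) _ (rel_lt _ _) _ (rel_lt _ _) hI hE, ?_⟩
      simp only [bit0]
      rw [Bool.or_comm (rel (4 * i) (f (4 * i + 4 + 1)) == 6)]
    · subst hb
      have e5 : g (4 * i + 5) = f (4 * i + 5) := hoth _ (by omega) (by omega)
      rw [e0, hga, hgb, e5]
      have h1 := (fin_small _ (rel_lt _ _) _ (rel_lt _ _) _ (rel_lt _ _) _ (rel_lt _ _) hI).2.2.2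
      have h2 := fin_wall _ (rel_lt _ _) _ (rel_lt _ _) _ (rel_lt _ _) _ (rel_lt _ _) h1 hE
      refine ⟨(fin_small _ (rel_lt _ _) _ (rel_lt _ _) _ (rel_lt _ _) _ (rel_lt _ _) h2).2.2.2, ?_⟩
      simp only [bit0]
      generalize (rel (4 * i) (f (4 * i + 4 + 2)) == 6) = x
      generalize (rel (4 * i) (f (4 * i + 5)) == 6) = y
      generalize (rel (4 * i) (f (4 * i + 4)) == 6) = z
      cases x <;> cases y <;> cases z <;> rfl
  · have e4 : g (4 * i + 4) = f (4 * i + 4) := hoth _ (by omega) (by omega)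
    have e5 : g (4 * i + 5) = f (4 * i + 5) := hoth _ (by omega) (by omega)
    have e6 : g (4 * i + 6) = f (4 * i + 6) := hoth _ (by omega) (by omega)
    rw [e0, e4, e5, e6]
    exact ⟨hI, rfl⟩

theorem R0_in : ∀ a < 14, ∀ b < 14, ∀ s s' : Bool, mIn a = true → mIn b = true →
    R0 a s b s' = true → s = s' := by
  decide +kernel

theorem mIn_of_lt {B r : ℕ} (h : r < B + 4) : mIn (rel B r) = true := by
  have := rel_spec B r
  simp only [mIn, Bool.or_eq_true, decide_eq_true_eq, beq_iff_eq]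
  omega

theorem step {n : ℕ} {f g : ℕ → ℕ} {a b : ℕ} (hf : Function.Injective f)
    (h0 : f 0 < 4 * n + 4) (hb : f b < 4 * n + 4) (hG : Good n f) (hm : Mv f g a b) :
    Good n g ∧ |phi (f 0) (bit f) n - phi (g 0) (bit g) n| ≤ 1 ∧
      ∀ i < n, f 0 < 4 * i + 4 → g 0 < 4 * i + 4 → bit g i = bit f i := by
  by_cases ha : a = 0
  · subst ha
    obtain ⟨h1, h2⟩ := step_root hf h0 hb hG hm
    refine ⟨fun i hi => (h2 i hi).1, ?_, fun i hi h3 h4 => ?_⟩
    · refine phi_lip _ _ _ _ ?_ h1 n (fun i hi => (h2 i hi).2)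
      rw [hm.2.2.1]
      exact hm.2.1
    · exact (R0_in _ (rel_lt _ _) _ (rel_lt _ _) _ _ (mIn_of_lt h3) (mIn_of_lt h4)
        (h2 i hi).2).symm
  · obtain ⟨h1, h2⟩ := step_wall ha hG hm
    refine ⟨fun i hi => (h2 i hi).1, ?_, fun i hi _ _ => (h2 i hi).2⟩
    rw [h1, phi_congr (f 0) (bit g) (bit f) n (fun i hi => (h2 i hi).2)]
    simp

set_option synthInstance.maxSize 4000 in
theorem fin_nw : ∀ r < 14, ∀ k < 14, ∀ w < 14, ∀ w' < 14, I0 r k w w' = true →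
    (w != 1 && w != 2 && w != 3 && (!mIn r || w != 0) && (!mQ r || w != 5)) = true := by
  decide +kernel

set_option synthInstance.maxSize 4000 in
theorem F1 : ∀ s < 2, ∀ k < 14, ∀ w < 14, ∀ w' < 14, I0 (4 + s) k w w' = true →
    k = 0 ∨ (k = 5 - s ∧ (w = 0 ∨ w' = 0)) := by
  decide +kernel

set_option synthInstance.maxSize 4000 in
theorem F2 : ∀ s < 2, ∀ w < 14, ∀ w' < 14, I0 0 (4 + s) w w' = true →
    bit0 (4 + s) w w' = (s == 1) := by
  decide +kernel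

set_option synthInstance.maxSize 4000 in
theorem F3 : ∀ s < 2, ∀ k < 14, ∀ w < 14, ∀ w' < 14, I0 1 k w w' = true →
    bit0 k w w' = (s == 1) → k ≠ 6 + s ∧ w ≠ 6 + s ∧ w' ≠ 6 + s := by
  decide +kernel

set_option synthInstance.maxSize 4000 in
theorem F4 : ∀ s < 2, ∀ k < 14, ∀ w < 14, ∀ w' < 14, I0 (6 + s) k w w' = true → k ≠ 1 →
    k = 7 - s ∨ (k = 4 + s ∧ (w = 7 - s ∨ w' = 7 - s)) := by
  decide +kernel

set_option synthInstance.maxSize 4000 in
theorem F5 : ∀ s < 2, ∀ w < 14, ∀ w' < 14, I0 1 (6 + s) w w' = true →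
    bit0 (6 + s) w w' = (s == 0) := by
  decide +kernel

set_option synthInstance.maxSize 4000 in
theorem F6 : ∀ s < 2, ∀ k < 14, ∀ w < 14, ∀ w' < 14, I0 0 k w w' = true →
    bit0 k w w' = (s == 0) → k = 5 - s ∨ (k = 6 + s ∧ (w = 5 - s ∨ w' = 5 - s)) := by
  decide +kernel

end Pool.Agent.Lib.MP_5b8c2d_co
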